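import Pool.Agent.W97.V20.Stm

set_option autoImplicit false

namespace Pool.Agent.W91.V20

open Pool.Agent.W97.V20 WeierstrassCurve WeierstrassCurve.Affine

/-- the curve over the rational numbers -/
noncomputable abbrev EQ : WeierstrassCurve ℚ := E13.map (Int.castRingHom ℚ)

theorem ha1 : EQ.a₁ = 0 := by simp [EQ, E13]
theorem ha2 : EQ.a₂ = -143 := by simp [EQ, E13]
theorem ha3 : EQ.a₃ = 0 := by simp [EQ, E13]
theorem ha4 : EQ.a₄ = -169 := by simp [EQ, E13]
theorem ha6 : EQ.a₆ = 0 := by simp [EQ, E13]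

theorem eqn (x y : ℚ) : EQ.toAffine.Equation x y ↔ y ^ 2 = x ^ 3 - 143 * x ^ 2 - 169 * x := by
  rw [WeierstrassCurve.Affine.equation_iff, ha1, ha2, ha3, ha4, ha6]
  constructor
  · intro h; linear_combination h
  · intro h; linear_combination h

theorem nn_pow (x : ℚ) (n : ℕ) : padicNorm 2 (x ^ n) = padicNorm 2 x ^ n := by
  induction n with
  | zero => simp
  | succ n ih => rw [pow_succ, padicNorm.mul, ih, pow_succ]

/-- `N(x^2 + a x + b) = N(x)^2` for integers `a, b` if `N(x) > 1` -/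
theorem nn_quad (x : ℚ) (a b : ℤ) (hx : 1 < padicNorm 2 x) :
    padicNorm 2 (x ^ 2 + a * x + b) = padicNorm 2 x ^ 2 := by
  have h1 : padicNorm 2 (a * x + b : ℚ) ≤ padicNorm 2 x := by
    refine (padicNorm.nonarchimedean (p := 2)).trans (max_le ?_ ?_)
    · rw [padicNorm.mul]
      have := padicNorm.of_int (p := 2) a
      nlinarith
    · exact (padicNorm.of_int (p := 2) b).trans hx.le
  have h2 : padicNorm 2 (x ^ 2) = padicNorm 2 x ^ 2 := nn_pow x 2
  have h3 : padicNorm 2 (a * x + b : ℚ) < padicNorm 2 (x ^ 2) := by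
    rw [h2]; nlinarith
  rw [show x ^ 2 + a * x + b = x ^ 2 + (a * x + b) by ring,
    padicNorm.add_eq_max_of_ne h3.ne', max_eq_left h3.le, h2]

/-- duplication multiplies the norm of `x` by four -/
theorem dbl (x y : ℚ) (h : EQ.toAffine.Nonsingular x y) (hx : 1 < padicNorm 2 x) :
    ∃ (x' y' : ℚ) (h' : EQ.toAffine.Nonsingular x' y'),
      (Point.some x y h : EQ.toAffine.Point) + Point.some x y h = Point.some x' y' h' ∧
      padicNorm 2 x' = 4 * padicNorm 2 x := by
  have he := (eqn x y).1 h.1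
  have h1 := nn_quad x (-143) (-169) hx
  have h2 := nn_quad x 0 169 hx
  have hN : padicNorm 2 y ^ 2 = padicNorm 2 x ^ 3 := by
    rw [← nn_pow, he, show x ^ 3 - 143 * x ^ 2 - 169 * x =
      x * (x ^ 2 + ((-143 : ℤ) : ℚ) * x + ((-169 : ℤ) : ℚ)) by push_cast; ring, padicNorm.mul, h1]
    ring
  have hy0 : y ≠ 0 := by
    intro h0
    rw [h0, padicNorm.zero] at hN
    have : (0 : ℚ) < padicNorm 2 x ^ 3 := by positivity
    rw [← hN] at this
    norm_num at this
  have hY : y ≠ EQ.toAffine.negY x y := by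
    rw [negY, ha1, ha3]
    intro h
    apply hy0
    linarith
  refine ⟨_, _, _, Point.add_self_of_Y_ne hY, ?_⟩
  have hx' : EQ.toAffine.addX x x (EQ.toAffine.slope x x y y) =
      (x ^ 2 + ((0 : ℤ) : ℚ) * x + ((169 : ℤ) : ℚ)) ^ 2 / (4 * y ^ 2) := by
    rw [slope_of_Y_ne rfl hY, addX, negY, ha1, ha2, ha3, ha4]
    have e : y - (-y - 0 * x - 0) = 2 * y := by ring
    rw [e]
    push_cast
    rw [eq_div_iff (by positivity)]
    have hk : ((3 * x ^ 2 + 2 * -143 * x + -169 - 0 * y) / (2 * y)) ^ 2 * (4 * y ^ 2) =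
        (3 * x ^ 2 + 2 * -143 * x + -169 - 0 * y) ^ 2 := by
      rw [div_pow, div_mul_eq_mul_div, div_eq_iff (by positivity)]
      ring
    linear_combination hk + (4 * 143 - 8 * x) * he
  rw [hx', padicNorm.div, padicNorm.mul, nn_pow, nn_pow, h2, hN]
  have h4 : padicNorm 2 (4 : ℚ) = 1 / 4 := by
    rw [show (4 : ℚ) = 2 ^ 2 by norm_num, nn_pow]
    have := padicNorm.padicNorm_p (p := 2) (by norm_num)
    rw [show ((2 : ℕ) : ℚ) = 2 by norm_num] at this
    rw [this]
    norm_num
  rw [h4]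
  have : padicNorm 2 x ≠ 0 := by positivity
  field_simp

theorem itr (P : EQ.toAffine.Point) (x y : ℚ) (h : EQ.toAffine.Nonsingular x y)
    (hP : P = Point.some x y h) (hx : 1 < padicNorm 2 x) (k : ℕ) :
    ∃ (x' y' : ℚ) (h' : EQ.toAffine.Nonsingular x' y'),
      (2 ^ k : ℕ) • P = Point.some x' y' h' ∧ padicNorm 2 x' = 4 ^ k * padicNorm 2 x := by
  induction k with
  | zero => exact ⟨x, y, h, by rw [pow_zero, one_nsmul, hP], by rw [pow_zero, one_mul]⟩
  | succ k ih =>
    obtain ⟨x', y', h', e1, e2⟩ := ih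
    have h1 : 1 < padicNorm 2 x' := by
      rw [e2]
      have : (1 : ℚ) ≤ 4 ^ k := one_le_pow₀ (by norm_num)
      nlinarith
    obtain ⟨x'', y'', h'', e3, e4⟩ := dbl x' y' h' h1
    refine ⟨x'', y'', h'', ?_, ?_⟩
    · rw [pow_succ, mul_nsmul, e1, two_nsmul, e3]
    · rw [e4, e2, pow_succ]; ring

theorem inford (P : EQ.toAffine.Point) (x y : ℚ) (h : EQ.toAffine.Nonsingular x y)
    (hP : P = Point.some x y h) (hx : 1 < padicNorm 2 x) : ¬ IsOfFinAddOrder P := by
  intro hf
  have hfin : (Set.range fun n : ℕ => n • P).Finite := by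
    have h1 := hf.finite_multiples
    rwa [AddSubmonoid.coe_multiples] at h1
  have hinj : Function.Injective (fun k : ℕ => (2 ^ k : ℕ) • P) := by
    intro a b hab
    obtain ⟨x1, y1, h1, e1, n1⟩ := itr P x y h hP hx a
    obtain ⟨x2, y2, h2, e2, n2⟩ := itr P x y h hP hx b
    have hab' : (2 ^ a : ℕ) • P = (2 ^ b : ℕ) • P := hab
    rw [e1, e2] at hab'
    have hxx : x1 = x2 := by
      have := Point.some.inj hab'
      exact this.1
    rw [hxx, n2] at n1
    have h0 : padicNorm 2 x ≠ 0 := by positivity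
    have := mul_right_cancel₀ h0 n1
    exact (Nat.pow_right_injective (le_refl 2 |>.trans (by norm_num : 2 ≤ 4)) (by exact_mod_cast this)).symm
  have : (Set.range fun k : ℕ => (2 ^ k : ℕ) • P).Finite :=
    hfin.subset (by rintro _ ⟨k, rfl⟩; exact ⟨2 ^ k, rfl⟩)
  exact Set.infinite_range_of_injective hinj this

theorem s_rank : Pool.Agent.W97.V20.S_RANK := by
  have hne : EQ.toAffine.Nonsingular (14292495399000625/49503382226496 : ℚ)
      (1211455304260901414497225/348299064885643052544 : ℚ) := by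
    rw [nonsingular_iff']
    refine ⟨(eqn _ _).2 (by norm_num), Or.inr ?_⟩
    rw [ha1, ha3]
    norm_num
  have hn : (1 : ℚ) < padicNorm 2 (14292495399000625/49503382226496 : ℚ) := by
    have e : (14292495399000625/49503382226496 : ℚ) =
      ((14292495399000625 : ℤ) : ℚ) / (2 ^ 6 * ((773490347289 : ℤ) : ℚ)) := by norm_num
    have h2 : padicNorm 2 (2 : ℚ) = 1 / 2 := by
      have := padicNorm.padicNorm_p (p := 2) (by norm_num)
      rw [show ((2 : ℕ) : ℚ) = 2 by norm_num] at this
      rw [this]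
      norm_num
    rw [e, padicNorm.div, padicNorm.mul, nn_pow, h2,
      (padicNorm.int_eq_one_iff (p := 2) 14292495399000625).2 (by norm_num),
      (padicNorm.int_eq_one_iff (p := 2) 773490347289).2 (by norm_num)]
    norm_num
  have hf := inford _ _ _ hne rfl hn
  have hli : LinearIndependent ℤ
      (fun _ : Unit => (Point.some _ _ hne : EQ.toAffine.Point)) := by
    rw [Fintype.linearIndependent_iff]
    intro g hg i
    by_contra h0
    apply hf
    simp only [Finset.univ_unique, Finset.sum_singleton] at hg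
    exact isOfFinAddOrder_iff_zsmul_eq_zero.2 ⟨g default, h0, hg⟩
  have := hli.cardinal_le_rank
  simpa [S_RANK] using this

end Pool.Agent.W91.V20
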